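import Mathlib

/-!
# A digraph with 20 vertices

The vertices are `k i l` (`i` modulo 6, `l` a truth value), a directed 2-cycle `q i`, a directed
3-cycle `t i` and three sinks `v`, `vp`, `vu`.
-/

namespace Pool.Agent.Q220.PPQ

inductive V : Type
  | k (i : ZMod 6) (l : Bool) : V
  | q (i : ZMod 2) : V
  | t (i : ZMod 3) : V
  | v : V
  | vp : V
  | vu : V
deriving DecidableEq

open V

def E : V → V → Prop
  | k i l, k j m => j = i + 1 ∧ l ≤ m
  | k _ _, v => True
  | k _ l, vp => l = true
  | k _ l, vu => l = false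
  | q i, q j => j = i + 1
  | q _, vp => True
  | t i, t j => j = i + 1
  | t _, vu => True
  | _, _ => False

theorem finite_V : Finite V := by
  let f : V → (ZMod 6 × Bool) ⊕ ZMod 2 ⊕ ZMod 3 ⊕ Fin 3 := fun x => match x with
    | k i l => Sum.inl (i, l)
    | q i => Sum.inr (Sum.inl i)
    | t i => Sum.inr (Sum.inr (Sum.inl i))
    | v => Sum.inr (Sum.inr (Sum.inr 0))
    | vp => Sum.inr (Sum.inr (Sum.inr 1))
    | vu => Sum.inr (Sum.inr (Sum.inr 2))
  have hf : Function.Injective f := by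
    intro x y h
    cases x <;> cases y <;> simp_all [f]
  exact Finite.of_injective f hf

theorem E_cases {x y : V} (h : E x y) :
    (∃ i l l', l ≤ l' ∧ x = k i l ∧ y = k (i + 1) l') ∨
    (∃ i l, x = k i l ∧ y = v) ∨
    (∃ i, x = k i true ∧ y = vp) ∨
    (∃ i, x = k i false ∧ y = vu) ∨
    (∃ i, x = q i ∧ y = q (i + 1)) ∨
    (∃ i, x = q i ∧ y = vp) ∨
    (∃ i, x = t i ∧ y = t (i + 1)) ∨
    (∃ i, x = t i ∧ y = vu) := by
  cases x <;> cases y <;>
  first
  | (obtain ⟨h1, h2⟩ := h
     subst h1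
     exact Or.inl ⟨_, _, _, h2, rfl, rfl⟩)
  | simp_all [E]

def isS : V → Bool
  | v => true
  | vp => true
  | vu => true
  | _ => false

def isK : V → Bool
  | k _ _ => true
  | _ => false

def isQ : V → Bool
  | q _ => true
  | _ => false

def isT : V → Bool
  | t _ => true
  | _ => false

def kI : V → ZMod 6
  | k i _ => i
  | _ => 0

def qI : V → ZMod 2
  | q i => i
  | _ => 0

def tI : V → ZMod 3
  | t i => i
  | _ => 0

def lab : V → Bool
  | k _ l => l
  | q _ => true
  | vp => true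
  | _ => false

def pq : V → Bool
  | q _ => true
  | vp => true
  | _ => false

def tu : V → Bool
  | t _ => true
  | vu => true
  | _ => false

/-- the number modulo 6 with given residues modulo 2 and 3 -/
def crt (a : ZMod 2) (b : ZMod 3) : ZMod 6 := 3 * (a.val : ZMod 6) + 4 * (b.val : ZMod 6)

theorem crt_succ (a : ZMod 2) (b : ZMod 3) : crt (a + 1) (b + 1) = crt a b + 1 := by
  revert a b
  decide

def lv (x y z : V) : ZMod 6 :=
  if isK x then kI x else if isK y then kI y else if isK z then kI z else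
    crt (if isQ x then qI x else if isQ y then qI y else qI z)
      (if isT x then tI x else if isT y then tI y else tI z)

def scan (x y z : V) : V :=
  if pq x && pq y && pq z then vp else if tu x && tu y && tu z then vu else v

/-- first coordinate, or the Maltsev operation -/
def lop (mal : Bool) {n : ℕ} (a b c : ZMod n) : ZMod n := if mal then a - b + c else a

theorem lop_succ (mal : Bool) {n : ℕ} (a b c : ZMod n) :
    lop mal (a + 1) (b + 1) (c + 1) = lop mal a b c + 1 := by
  unfold lop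
  split
  · ring
  · rfl

/-- the operation of the digraph given by a Boolean operation `L` on the labels -/
def good (mal : Bool) (L : Bool → Bool → Bool → Bool) (x y z : V) : V :=
  if isS x || isS y || isS z then scan x y z
  else if isQ x && isQ y && isQ z then q (lop mal (qI x) (qI y) (qI z))
  else if isT x && isT y && isT z then t (lop mal (tI x) (tI y) (tI z))
  else if isK x && isK y && isK z then
    k (lop mal (kI x) (kI y) (kI z)) (L (lab x) (lab y) (lab z))
  else k (lv x y z) (L (lab x) (lab y) (lab z))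

theorem good_edge (mal : Bool) (L L' : Bool → Bool → Bool → Bool)
    (hL : ∀ a b c a' b' c', a ≤ a' → b ≤ b' → c ≤ c' → L a b c ≤ L' a' b' c')
    (h1 : L true true true = true) (h0 : L false false false = false)
    {x x' y y' z z' : V} (hx : E x x') (hy : E y y') (hz : E z z') :
    E (good mal L x y z) (good mal L' x' y' z') := by
  rcases E_cases hx with ⟨i, l, l', hl, rfl, rfl⟩ | ⟨i, l, rfl, rfl⟩ | ⟨i, rfl, rfl⟩ |
    ⟨i, rfl, rfl⟩ | ⟨i, rfl, rfl⟩ | ⟨i, rfl, rfl⟩ | ⟨i, rfl, rfl⟩ | ⟨i, rfl, rfl⟩ <;>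
  rcases E_cases hy with ⟨j, m, m', hm, rfl, rfl⟩ | ⟨j, m, rfl, rfl⟩ | ⟨j, rfl, rfl⟩ |
    ⟨j, rfl, rfl⟩ | ⟨j, rfl, rfl⟩ | ⟨j, rfl, rfl⟩ | ⟨j, rfl, rfl⟩ | ⟨j, rfl, rfl⟩ <;>
  rcases E_cases hz with ⟨r, n, n', hn, rfl, rfl⟩ | ⟨r, n, rfl, rfl⟩ | ⟨r, rfl, rfl⟩ |
    ⟨r, rfl, rfl⟩ | ⟨r, rfl, rfl⟩ | ⟨r, rfl, rfl⟩ | ⟨r, rfl, rfl⟩ | ⟨r, rfl, rfl⟩ <;>
  first
  | (simp [good, isS, isQ, isT, isK, qI, tI, kI, lab, pq, tu, scan, E, lv, crt_succ, lop_succ,
      h1, h0]; done)
  | (simp only [good, isS, isQ, isT, isK, qI, tI, kI, lab, lv, crt_succ, lop_succ, E,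
      Bool.or_self, Bool.and_self, Bool.and_true, Bool.and_false, if_true, if_false,
      Bool.false_eq_true, true_and]
     exact hL _ _ _ _ _ _ (by first | assumption | exact le_refl _)
      (by first | assumption | exact le_refl _) (by first | assumption | exact le_refl _))

end Pool.Agent.Q220.PPQ
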