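import Pool.Agent.Q220.PPQ.Graph

/-!
# Operations and families of operations of the digraph
-/

namespace Pool.Agent.Q220.PPQ

open V

def vl : V → V
  | q _ => vp
  | _ => vu

def pr : Bool → Bool → Bool → Bool := fun a _ _ => a

def mn : Bool → Bool → Bool → Bool := fun a b c => a && b && c

def nu : Bool → Bool → Bool → Bool := fun a b c => a && (!b || c)

def L0 (x y : V) : V := if (isQ x || isT x) && isS y then vl x else x

def L1 (x y : V) : V :=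
  if isS x || isK x then x else if isS y then vl x
  else if (isQ x && isQ y) || (isT x && isT y) then x else k (lv x y y) (lab x)

def A0 (x y z : V) : V := if (isQ x || isT x) && isS z && !isS y then vl x else x

def A1 (x y z : V) : V :=
  if isS x || isK x then x else if isS y || isS z then vl x
  else if (isQ x && isQ y) || (isT x && isT y) then L1 x z else x

def A2 (x y z : V) : V :=
  if isS x || isS y || isS z then
    (if y = z then (if isS x || isK x then x else vl x) else scan x y z)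
  else good false pr x y z

def gB (x y : V) : V := good false pr x y y

def mB (x y : V) : V := good false mn x y y

theorem A0_edge {x x' y y' z z' : V} (hx : E x x') (hy : E y y') (hz : E z z') :
    E (A0 x y z) (A0 x' y' z') := by
  rcases E_cases hx with ⟨i, l, l', hl, rfl, rfl⟩ | ⟨i, l, rfl, rfl⟩ | ⟨i, rfl, rfl⟩ |
    ⟨i, rfl, rfl⟩ | ⟨i, rfl, rfl⟩ | ⟨i, rfl, rfl⟩ | ⟨i, rfl, rfl⟩ | ⟨i, rfl, rfl⟩ <;>
  rcases E_cases hy with ⟨j, m, m', hm, rfl, rfl⟩ | ⟨j, m, rfl, rfl⟩ | ⟨j, rfl, rfl⟩ |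
    ⟨j, rfl, rfl⟩ | ⟨j, rfl, rfl⟩ | ⟨j, rfl, rfl⟩ | ⟨j, rfl, rfl⟩ | ⟨j, rfl, rfl⟩ <;>
  rcases E_cases hz with ⟨r, n, n', hn, rfl, rfl⟩ | ⟨r, n, rfl, rfl⟩ | ⟨r, rfl, rfl⟩ |
    ⟨r, rfl, rfl⟩ | ⟨r, rfl, rfl⟩ | ⟨r, rfl, rfl⟩ | ⟨r, rfl, rfl⟩ | ⟨r, rfl, rfl⟩ <;>
  simp_all [A0, isS, isQ, isT, vl, E]

theorem A1_edge {x x' y y' z z' : V} (hx : E x x') (hy : E y y') (hz : E z z') :
    E (A1 x y z) (A1 x' y' z') := by
  rcases E_cases hx with ⟨i, l, l', hl, rfl, rfl⟩ | ⟨i, l, rfl, rfl⟩ | ⟨i, rfl, rfl⟩ |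
    ⟨i, rfl, rfl⟩ | ⟨i, rfl, rfl⟩ | ⟨i, rfl, rfl⟩ | ⟨i, rfl, rfl⟩ | ⟨i, rfl, rfl⟩ <;>
  rcases E_cases hy with ⟨j, m, m', hm, rfl, rfl⟩ | ⟨j, m, rfl, rfl⟩ | ⟨j, rfl, rfl⟩ |
    ⟨j, rfl, rfl⟩ | ⟨j, rfl, rfl⟩ | ⟨j, rfl, rfl⟩ | ⟨j, rfl, rfl⟩ | ⟨j, rfl, rfl⟩ <;>
  rcases E_cases hz with ⟨r, n, n', hn, rfl, rfl⟩ | ⟨r, n, rfl, rfl⟩ | ⟨r, rfl, rfl⟩ |
    ⟨r, rfl, rfl⟩ | ⟨r, rfl, rfl⟩ | ⟨r, rfl, rfl⟩ | ⟨r, rfl, rfl⟩ | ⟨r, rfl, rfl⟩ <;>
  simp [A1, L1, isS, isQ, isT, isK, vl, E, lv, kI, qI, tI, lab, crt_succ] <;> assumption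

theorem A2_edge {x x' y y' z z' : V} (hx : E x x') (hy : E y y') (hz : E z z') :
    E (A2 x y z) (A2 x' y' z') := by
  rcases E_cases hx with ⟨i, l, l', hl, rfl, rfl⟩ | ⟨i, l, rfl, rfl⟩ | ⟨i, rfl, rfl⟩ |
    ⟨i, rfl, rfl⟩ | ⟨i, rfl, rfl⟩ | ⟨i, rfl, rfl⟩ | ⟨i, rfl, rfl⟩ | ⟨i, rfl, rfl⟩ <;>
  rcases E_cases hy with ⟨j, m, m', hm, rfl, rfl⟩ | ⟨j, m, rfl, rfl⟩ | ⟨j, rfl, rfl⟩ |
    ⟨j, rfl, rfl⟩ | ⟨j, rfl, rfl⟩ | ⟨j, rfl, rfl⟩ | ⟨j, rfl, rfl⟩ | ⟨j, rfl, rfl⟩ <;>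
  rcases E_cases hz with ⟨r, n, n', hn, rfl, rfl⟩ | ⟨r, n, rfl, rfl⟩ | ⟨r, rfl, rfl⟩ |
    ⟨r, rfl, rfl⟩ | ⟨r, rfl, rfl⟩ | ⟨r, rfl, rfl⟩ | ⟨r, rfl, rfl⟩ | ⟨r, rfl, rfl⟩ <;>
  simp [A2, good, lop, pr, scan, pq, tu, isS, isQ, isT, isK, vl, E, lv, kI, qI, tI, lab,
    crt_succ] <;> first | done | assumption | (split_ifs <;> simp [E] <;> assumption)

theorem A0_xyy (x y : V) : A0 x y y = x := by
  cases x <;> cases y <;> simp [A0, isS, isQ, isT]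

theorem A0_xxy (x y : V) : A0 x x y = L0 x y := by
  cases x <;> cases y <;> simp [A0, L0, isS, isQ, isT]

theorem A1_xyy (x y : V) : A1 x y y = L0 x y := by
  cases x <;> cases y <;> simp [A1, L1, L0, isS, isQ, isT, isK, vl]

theorem A1_xxy (x y : V) : A1 x x y = L1 x y := by
  cases x <;> cases y <;> simp [A1, L1, isS, isQ, isT, isK, vl]

theorem A2_xyy (x y : V) : A2 x y y = L1 x y := by
  cases x <;> cases y <;>
    simp [A2, L1, good, lop, pr, isS, isQ, isT, isK, vl, lv, kI, qI, tI, lab]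

theorem A2_xxy (x y : V) : A2 x x y = gB x y := by
  cases x <;> cases y <;>
    simp [A2, gB, good, lop, pr, scan, pq, tu, isS, isQ, isT, isK, lv, kI, qI, tI, lab]

theorem g_xxy (x y : V) : good false pr x x y = gB x y := by
  cases x <;> cases y <;>
    simp [gB, good, lop, pr, scan, pq, tu, isS, isQ, isT, isK, lv, kI, qI, tI, lab]

theorem m_xxy (x y : V) : good false mn x x y = mB x y := by
  cases x <;> cases y <;>
    simp [mB, good, lop, mn, scan, pq, tu, isS, isQ, isT, isK, lv, kI, qI, tI, lab]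

theorem n_xyy (x y : V) : good false nu x y y = gB x y := by
  cases x <;> cases y <;>
    simp [gB, good, lop, pr, nu, scan, pq, tu, isS, isQ, isT, isK, lv, kI, qI, tI, lab]

theorem n_xxy (x y : V) : good false nu x x y = mB x y := by
  cases x <;> cases y <;>
    simp [mB, good, lop, mn, nu, scan, pq, tu, isS, isQ, isT, isK, lv, kI, qI, tI, lab]
  rename_i a b c d
  cases b <;> cases d <;> rfl

theorem d_xyy (x y : V) : good true mn x y y = mB x y := by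
  cases x <;> cases y <;>
    simp [mB, good, lop, mn, scan, pq, tu, isS, isQ, isT, isK, lv, kI, qI, tI, lab]

theorem d_xxy (x y : V) : good true mn x x y = mB y x := by
  cases x <;> cases y <;>
    simp [mB, good, lop, mn, scan, pq, tu, isS, isQ, isT, isK, lv, kI, qI, tI, lab]
  rename_i a b c d
  cases b <;> cases d <;> rfl

end Pool.Agent.Q220.PPQ
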